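import Pool.Agent.H71.SH.Final3
import Pool.Graph.R_pool_sql_team_seeded_63374d34.N922.PQ.Unr

/-!
# The 2-primary parts of the Tate-Shafarevich groups of infinitely many quadratic twists are trivial
# at the same time, for a positive proportion of all elliptic curves over `ℚ`

For squarefree `d` let `E ^ d` be the quadratic twist of the elliptic curve `E` over `ℚ`. The squarefree
integers are divided in four types, according to the ramification of `ℚ(√d)` at `2`: `d = t u` with
`u = 1` modulo `4` and `t = 1, -1, 2, -2`.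

Theorem. Let `t` be one of the four types, `T` a finite set of odd primes and `K / ℚ` a finite Galois
extension of 2-power degree in which `2` is unramified (for instance `K = ℚ`). For a positive
proportion of all elliptic curves `E : y ^ 2 = x ^ 3 + A x + B` over `ℚ`, ordered by height, the cubic
polynomial has no zero modulo the primes in `T`, and for ALL squarefree integers `d` (positive or
negative, even or odd) which are not of type `t` and whose odd prime divisors `q` are such that
`x ^ 3 + A x + B` has no zero modulo `q` (so that `q` is a prime of good reduction and the number of points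
modulo `q` is odd), the 2-Selmer group of `E ^ d` over `K` is zero, `E ^ d (K) = 0` and
`Ш(E ^ d / K)[2 ^ ∞] = 0`.

In particular, for every finite set `D` of squarefree integers in which one of the four types does not
occur, for instance for any three squarefree integers, a positive proportion of all elliptic curves `E`
over `ℚ` have `E ^ d (ℚ) = 0` and `Ш(E ^ d / ℚ)[2 ^ ∞] = 0` for all `d` in `D` (`finite_sets`).

The proof rests on the projects PQ and PV of helper922 in the library (theorem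
`MP_78d38b_nt.PositiveProportionUnramified`, which is the case `d = 1` alone): a curve of the family is
twisted by a product of auxiliary primes, and this product can be chosen in terms of the cubic field
only. New are the local conditions at `2` of the twists: for `a = b = 3` modulo `4` the local images of
`y ^ 2 = x ^ 3 + a x + b` and of its twists by `d = 1` modulo `4` and by all even squarefree `d` are
the same subgroup of `H ^ 1 (ℚ_2, E[2])`, and the other sets of three types are obtained by a twist.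
-/

set_option autoImplicit false
set_option linter.all false

namespace Pool.Agent.Results.MP_e23604_nt.SimultaneousTwists

open Filter NumberField IsDedekindDomain Pool.Agent.TH115.GD
open scoped Classical

/-- The equation `y ^ 2 = x ^ 3 + A x + B` with integers `A`, `B` defines an elliptic curve, and
there is no prime `p` with `p ^ 4 ∣ A` and `p ^ 6 ∣ B`. Every elliptic curve over `ℚ` is isomorphic to
exactly one of these. -/
structure IsMinimal (A B : ℤ) : Prop where
  elliptic : 4 * A ^ 3 + 27 * B ^ 2 ≠ 0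
  minimal : ∀ p : ℕ, p.Prime → ¬ ((p : ℤ) ^ 4 ∣ A ∧ (p : ℤ) ^ 6 ∣ B)

/-- The height. -/
def height (p : ℤ × ℤ) : ℤ := max (4 * |p.1| ^ 3) (27 * p.2 ^ 2)

/-- The set of all elliptic curves over `ℚ` of height at most `X`. -/
def Curves (X : ℕ) : Set (ℤ × ℤ) := {p | IsMinimal p.1 p.2 ∧ height p ≤ X}

/-- The quadratic twist by `d`: `y ^ 2 = x ^ 3 + A d ^ 2 x + B d ^ 3`. -/
def twist (d : ℤ) (p : ℤ × ℤ) : ℤ × ℤ := (p.1 * d ^ 2, p.2 * d ^ 3)

/-- The curve `y ^ 2 = x ^ 3 + A x + B` over `K`. -/
def curve (K : Type) [Field K] (p : ℤ × ℤ) : WeierstrassCurve K := ⟨0, 0, 0, (p.1 : K), (p.2 : K)⟩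

/-- The polynomial `x ^ 3 + A x + B` has no zero modulo `q`. -/
def NoZero (q : ℕ) (p : ℤ × ℤ) : Prop := ∀ z : ℤ, ¬ (q : ℤ) ∣ z ^ 3 + p.1 * z + p.2

/-- The integer `d` is of type `t`: `d = t u` with `u = 1` modulo `4`. Every squarefree integer is of
exactly one of the types `1`, `-1`, `2`, `-2`. -/
def HasType (t d : ℤ) : Prop := ∃ u : ℤ, u % 4 = 1 ∧ d = t * u

section sha

variable (K : Type) [Field K] [NumberField K] (W : WeierstrassCurve K)

/-- The cocycle `f` of `Gal(Sep K / K)` is a coboundary over the completion of `K` at every maximal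
ideal of the ring of integers. -/
def Locally (f : (Sep K ≃ₐ[K] Sep K) → Pt W (Sep K)) : Prop :=
  ∀ v : HeightOneSpectrum (𝓞 K), LocTriv W (Comp (𝓞 K) K v) (Sep (Comp (𝓞 K) K v)) f

/-- The 2-Selmer group is zero: every continuous cocycle with values in the points of order two
which is a coboundary over all completions (at the finite places), with values in all points, is
the coboundary of a point of order two. -/
def SelTwoZero : Prop :=
  ∀ f : (Sep K ≃ₐ[K] Sep K) → Pt W (Sep K), IsCoc W f → (∀ σ, (2 : ℕ) • f σ = 0) →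
    Locally K W f → ∃ T : Pt W (Sep K), (2 : ℕ) • T = 0 ∧ ∀ σ, f σ = act W (rs K σ) T - T

/-- The 2-primary part of the Tate-Shafarevich group is zero: every continuous cocycle whose class
is killed by a power of two and which is a coboundary over all completions (at the finite places) is a
coboundary. -/
def ShaTwoZero : Prop :=
  ∀ f : (Sep K ≃ₐ[K] Sep K) → Pt W (Sep K), IsCoc W f → Locally K W f →
    (∃ (n : ℕ) (Q : Pt W (Sep K)), ∀ σ, 2 ^ n • f σ = act W (rs K σ) Q - Q) →
    ∃ Q : Pt W (Sep K), ∀ σ, f σ = act W (rs K σ) Q - Q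

/-- Trivial 2-Selmer group, trivial 2-primary part of the Tate-Shafarevich group, and no points
except the point at infinity, over `K`. -/
structure Good (K : Type) [Field K] [NumberField K] (p : ℤ × ℤ) : Prop where
  sel : SelTwoZero K (curve K p)
  sha : ShaTwoZero K (curve K p)
  trivial : Subsingleton (Pt (curve K p) K)

end sha

/-- `P` holds for a positive proportion of all elliptic curves over `ℚ`, ordered by height. -/
def PositiveProportion (P : ℤ × ℤ → Prop) : Prop :=
  (∀ X : ℕ, (Curves X).Finite) ∧ ∃ c : ℝ, 0 < c ∧ ∀ᶠ X : ℕ in atTop,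
    0 < (Curves X).ncard ∧ c * ((Curves X).ncard : ℝ) ≤ (({p ∈ Curves X | P p}).ncard : ℝ)

theorem crv_iff (X : ℕ) (p : ℤ × ℤ) : Pool.Agent.N922.PQ.Crv X p.1 p.2 ↔ p ∈ Curves X := by
  constructor
  · rintro ⟨h1, h2, h3, h4⟩
    exact ⟨⟨h1, h2⟩, max_le h3 h4⟩
  · rintro ⟨⟨h1, h2⟩, h3⟩
    exact ⟨h1, h2, (le_max_left _ _).trans h3, (le_max_right _ _).trans h3⟩

theorem nonempty {X : ℕ} (hX : 27 ≤ X) : ((1, 1) : ℤ × ℤ) ∈ Curves X := by
  refine ⟨⟨by norm_num, ?_⟩, ?_⟩
  · rintro p hp ⟨h, -⟩
    have h1 : ((p : ℤ)) ∣ 1 := (dvd_pow_self (p : ℤ) (by norm_num)).trans h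
    have h2 : p ∣ 1 := by exact_mod_cast h1
    exact hp.one_lt.ne' (Nat.dvd_one.1 h2)
  · have : height ((1, 1) : ℤ × ℤ) = 27 := by
      simp [height]
    rw [this]
    exact_mod_cast hX

theorem pos_mono {P Q : ℤ × ℤ → Prop} (h : ∀ p, P p → Q p) (hP : PositiveProportion P) :
    PositiveProportion Q := by
  obtain ⟨hfin, c, hc, hev⟩ := hP
  refine ⟨hfin, c, hc, ?_⟩
  filter_upwards [hev] with X hX
  refine ⟨hX.1, hX.2.trans ?_⟩
  have h4 : ({p ∈ Curves X | P p}).ncard ≤ ({p ∈ Curves X | Q p}).ncard :=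
    Set.ncard_le_ncard (fun p hp => ⟨hp.1, h p hp.2⟩) ((hfin X).subset fun p hp => hp.1)
  exact_mod_cast h4

theorem main (K : Type) [Field K] [NumberField K] [IsGalois ℚ K] (n : ℕ)
    (hn : Module.finrank ℚ K = 2 ^ n)
    (h2 : ∀ 𝔭 : Ideal (𝓞 K), 𝔭.IsPrime → (2 : 𝓞 K) ∉ 𝔭 ^ 2) (T : Finset ℕ) (t : ℤ)
    (ht : t = 1 ∨ t = -1 ∨ t = 2 ∨ t = -2) :
    PositiveProportion fun p => (∀ q ∈ T, q.Prime → q ≠ 2 → NoZero q p) ∧
      ∀ d : ℤ, Squarefree d → ¬ HasType t d →
        (∀ q : ℕ, q.Prime → q ≠ 2 → (q : ℤ) ∣ d → NoZero q p) → Good K (twist d p) := by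
  have hset : ∀ X : ℕ, Curves X = {p : ℤ × ℤ | Pool.Agent.N922.PQ.Crv X p.1 p.2} := by
    intro X
    ext p
    exact (crv_iff X p).symm
  have hfin : ∀ X : ℕ, (Curves X).Finite := fun X => by
    rw [hset]
    exact Pool.Agent.N922.PQ.crv_fin X
  refine ⟨hfin, ?_⟩
  obtain ⟨T₁, hT₁⟩ : ∃ T₁ : Finset ℤ, T₁ = (T.filter fun q => q.Prime ∧ q ≠ 2).image
    (fun q : ℕ => (q : ℤ)) := ⟨_, rfl⟩
  have hT₁' : ∀ q ∈ T₁, Pool.Agent.N922.PQ.IsPr q ∧ q ≠ 2 := by
    intro q hq
    rw [hT₁, Finset.mem_image] at hq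
    obtain ⟨r, hr, rfl⟩ := hq
    rw [Finset.mem_filter] at hr
    refine ⟨⟨by exact_mod_cast hr.2.1.pos, Nat.prime_iff_prime_int.1 hr.2.1⟩, ?_⟩
    have := hr.2.2
    exact_mod_cast this
  obtain ⟨c, hc, X₀, h⟩ := Pool.Agent.H71.SH.finalV3 K (𝓞 K) hn
    (Pool.Agent.N922.PQ.val_two_of h2) T₁ hT₁' ht
  refine ⟨c, hc, ?_⟩
  filter_upwards [eventually_ge_atTop (max X₀ 27)] with X hX
  refine ⟨(Set.ncard_pos (hfin X)).2 ⟨_, nonempty ((le_max_right _ _).trans hX)⟩, ?_⟩
  have h1 := (h X ((le_max_left _ _).trans hX)).2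
  rw [← hset] at h1
  refine h1.trans ?_
  have h3 : {p : ℤ × ℤ | Pool.Agent.N922.PQ.Crv X p.1 p.2 ∧
      Pool.Agent.H71.SH.Good3 (M := K) (𝓞 K) T₁ t p} ⊆ {p ∈ Curves X |
        (∀ q ∈ T, q.Prime → q ≠ 2 → NoZero q p) ∧ ∀ d : ℤ, Squarefree d → ¬ HasType t d →
        (∀ q : ℕ, q.Prime → q ≠ 2 → (q : ℤ) ∣ d → NoZero q p) → Good K (twist d p)} := by
    rintro p ⟨hp, hnt, htw⟩
    refine ⟨(crv_iff X p).1 hp, fun q hq hqp hq2 => ?_, fun d hd hdt hdq => ?_⟩
    · exact hnt q (by
        rw [hT₁, Finset.mem_image]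
        exact ⟨q, Finset.mem_filter.2 ⟨hq, hqp, hq2⟩, rfl⟩)
    · obtain ⟨g1, g2, g3⟩ := htw d hd hdt (fun q hq hq2 hqd => by
        obtain ⟨r, hr⟩ := Int.eq_ofNat_of_zero_le hq.1.le
        subst hr
        refine hdq r (Nat.prime_iff_prime_int.2 hq.2) ?_ hqd
        intro hr2
        apply hq2
        rw [hr2]
        rfl)
      exact ⟨g1, g3, g2⟩
  have h4 := Set.ncard_le_ncard h3 ((hfin X).subset fun p hp => hp.1)
  exact_mod_cast h4

/-- Finite sets of twists: a consequence of the theorem `main` (which is the theorem `result` below). -/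
theorem finite_sets (K : Type) [Field K] [NumberField K] [IsGalois ℚ K] (n : ℕ)
    (hn : Module.finrank ℚ K = 2 ^ n)
    (h2 : ∀ 𝔭 : Ideal (𝓞 K), 𝔭.IsPrime → (2 : 𝓞 K) ∉ 𝔭 ^ 2) (t : ℤ)
    (ht : t = 1 ∨ t = -1 ∨ t = 2 ∨ t = -2) (D : Finset ℤ)
    (hD : ∀ d ∈ D, Squarefree d ∧ ¬ HasType t d) :
    PositiveProportion fun p => ∀ d ∈ D, Good K (twist d p) := by
  refine pos_mono ?_ (main K n hn h2 (D.biUnion fun d => d.natAbs.primeFactors) t ht)
  rintro p ⟨h1, h3⟩ d hd
  refine h3 d (hD d hd).1 (hD d hd).2 fun q hq hq2 hqd => h1 q ?_ hq hq2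
  rw [Finset.mem_biUnion]
  refine ⟨d, hd, Nat.mem_primeFactors.2 ⟨hq, Int.natCast_dvd.1 hqd, ?_⟩⟩
  exact Int.natAbs_ne_zero.2 (hD d hd).1.ne_zero

/-- Let `K` be a Galois extension of `ℚ` of degree `2 ^ n` in which `2` is unramified (no prime ideal
`𝔭` of `K` has `2 ∈ 𝔭 ^ 2`), for instance `K = ℚ`.

For every type `t` and every finite set `T` of primes, a positive proportion of all elliptic curves over
`ℚ` has the following property: the cubic polynomial has no zero modulo the odd primes in `T`, and for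
every squarefree integer `d` which is not of type `t` and modulo whose odd prime divisors the cubic
polynomial has no zero, the quadratic twist by `d` has trivial 2-Selmer group over `K`, no points over
`K` but the point at infinity, and trivial 2-primary part of the Tate-Shafarevich group over `K`.

(These `d` include all squarefree `d` which are not of type `t` and all of whose odd prime divisors are
in `T`.) -/
theorem result (K : Type) [Field K] [NumberField K] [IsGalois ℚ K] (n : ℕ)
    (hn : Module.finrank ℚ K = 2 ^ n)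
    (h2 : ∀ 𝔭 : Ideal (𝓞 K), 𝔭.IsPrime → (2 : 𝓞 K) ∉ 𝔭 ^ 2) (T : Finset ℕ) (t : ℤ)
    (ht : t = 1 ∨ t = -1 ∨ t = 2 ∨ t = -2) :
    PositiveProportion fun p => (∀ q ∈ T, q.Prime → q ≠ 2 → NoZero q p) ∧
      ∀ d : ℤ, Squarefree d → ¬ HasType t d →
        (∀ q : ℕ, q.Prime → q ≠ 2 → (q : ℤ) ∣ d → NoZero q p) → Good K (twist d p) :=
  main K n hn h2 T t ht

end Pool.Agent.Results.MP_e23604_nt.SimultaneousTwists
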